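import Mathlib

set_option autoImplicit false

/-!
# Points congruent modulo `2 E(ℚ)`: the product of the `x - T` is a square
-/

namespace Pool.Agent.U133.WR

open Polynomial

/-- `T ^ 3 + A T + B` over `ℚ` -/
noncomputable def FQ (A B : ℚ) : ℚ[X] := X ^ 3 + C A * X + C B

/-- the line through two points -/
lemma chord {A B x₁ y₁ x₂ y₂ l x₃ : ℚ} (h1 : y₁ ^ 2 = x₁ ^ 3 + A * x₁ + B)
    (h2 : y₂ ^ 2 = x₂ ^ 3 + A * x₂ + B) (hx : x₁ ≠ x₂) (hl : l * (x₁ - x₂) = y₁ + y₂)
    (h3 : x₃ = l ^ 2 - x₁ - x₂) :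
    (C l * (X - C x₁) + C y₁) ^ 2 = FQ A B + (C x₁ - X) * (C x₂ - X) * (C x₃ - X) := by
  have hne : x₁ - x₂ ≠ 0 := sub_ne_zero.mpr hx
  have ha : A - 2 * l * (y₁ - l * x₁) - (x₁ * x₂ + x₁ * x₃ + x₂ * x₃) = 0 := by
    apply mul_left_cancel₀ hne
    rw [mul_zero, h3]
    linear_combination h2 - h1 + (l * (x₁ - x₂) - (y₁ - y₂)) * hl
  have hb : B - (y₁ - l * x₁) ^ 2 + x₁ * x₂ * x₃ = 0 := by
    have : x₁ ^ 3 + A * x₁ + B - y₁ ^ 2 = 0 := by linear_combination -h1
    rw [h3] at ha ⊢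
    linear_combination this - x₁ * ha
  have haC := congrArg (C : ℚ → ℚ[X]) ha
  have hbC := congrArg (C : ℚ → ℚ[X]) hb
  have h3C := congrArg (C : ℚ → ℚ[X]) h3
  simp only [map_sub, map_mul, map_add, map_pow, map_zero, map_ofNat] at haC hbC h3C
  rw [FQ]
  linear_combination -X * haC - hbC - X ^ 2 * h3C

/-- the tangent line -/
lemma tangent {A B r s m x₃ : ℚ} (h1 : s ^ 2 = r ^ 3 + A * r + B) (hm : m * (2 * s) = 3 * r ^ 2 + A)
    (h3 : x₃ = m ^ 2 - r - r) :
    (C m * (X - C r) + C s) ^ 2 = FQ A B + (C r - X) * (C r - X) * (C x₃ - X) := by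
  have ha : A - 2 * m * (s - m * r) - (r * r + r * x₃ + r * x₃) = 0 := by
    rw [h3]
    linear_combination -hm
  have hb : B - (s - m * r) ^ 2 + r * r * x₃ = 0 := by
    rw [h3]
    linear_combination -h1 + r * hm
  have haC := congrArg (C : ℚ → ℚ[X]) ha
  have hbC := congrArg (C : ℚ → ℚ[X]) hb
  have h3C := congrArg (C : ℚ → ℚ[X]) h3
  simp only [map_sub, map_mul, map_add, map_pow, map_zero, map_ofNat] at haC hbC h3C
  rw [FQ]
  linear_combination -X * haC - hbC - X ^ 2 * h3C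

lemma FQ_eval (A B t : ℚ) : (FQ A B).eval t = t ^ 3 + A * t + B := by simp [FQ]

/-- inverses modulo `F` -/
lemma inv_mod {A B t : ℚ} (ht : t ^ 3 + A * t + B ≠ 0) :
    ∃ N : ℚ[X], FQ A B ∣ N * (C t - X) - 1 := by
  have h1 : FQ A B = C (t ^ 3 + A * t + B) + (X - C t) * (FQ A B /ₘ (X - C t)) := by
    rw [← FQ_eval, ← modByMonic_X_sub_C_eq_C_eval, modByMonic_add_div]
  refine ⟨C (t ^ 3 + A * t + B)⁻¹ * (FQ A B /ₘ (X - C t)), -C (t ^ 3 + A * t + B)⁻¹, ?_⟩
  have h2 : C (t ^ 3 + A * t + B)⁻¹ * C (t ^ 3 + A * t + B) = (1 : ℚ[X]) := by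
    rw [← C_mul, inv_mul_cancel₀ ht, C_1]
  linear_combination C (t ^ 3 + A * t + B)⁻¹ * h1 + h2

/-- **The algebra.** -/
lemma square {A B x₁ y₁ x₂ y₂ l x₃ r s m : ℚ} (hD : 4 * A ^ 3 + 27 * B ^ 2 ≠ 0)
    (h1 : y₁ ^ 2 = x₁ ^ 3 + A * x₁ + B)
    (h2 : y₂ ^ 2 = x₂ ^ 3 + A * x₂ + B) (hx : x₁ ≠ x₂) (hl : l * (x₁ - x₂) = y₁ + y₂)
    (h3 : x₃ = l ^ 2 - x₁ - x₂) (hs : s ^ 2 = r ^ 3 + A * r + B) (hs0 : s ≠ 0)
    (hm : m * (2 * s) = 3 * r ^ 2 + A) (h4 : x₃ = m ^ 2 - r - r) :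
    ∃ Q : ℚ[X], FQ A B ∣ Q ^ 2 - (C x₁ - X) * (C x₂ - X) := by
  have e1 := chord h1 h2 hx hl h3
  have e2 := tangent hs hm h4
  by_cases hx3 : x₃ ^ 3 + A * x₃ + B = 0
  · -- a point of order four
    have hl0 : l * (x₃ - x₁) + y₁ = 0 := by
      have := congrArg (eval x₃) e1
      simp only [eval_pow, eval_add, eval_mul, eval_sub, eval_C, eval_X, FQ_eval, hx3, sub_self,
        mul_zero, add_zero] at this
      exact pow_eq_zero_iff two_ne_zero |>.mp this
    have hm0 : m * (x₃ - r) + s = 0 := by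
      have := congrArg (eval x₃) e2
      simp only [eval_pow, eval_add, eval_mul, eval_sub, eval_C, eval_X, FQ_eval, hx3, sub_self,
        mul_zero, add_zero] at this
      exact pow_eq_zero_iff two_ne_zero |>.mp this
    have hmne : m ≠ 0 := by
      rintro rfl
      rw [zero_mul, zero_add] at hm0
      exact hs0 hm0
    set g : ℚ[X] := X ^ 2 + C x₃ * X + C (A + x₃ ^ 2) with hg
    have hF : FQ A B = (X - C x₃) * g := by
      have hxC := congrArg (C : ℚ → ℚ[X]) hx3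
      simp only [map_add, map_mul, map_pow, map_zero] at hxC
      rw [FQ, hg]
      simp only [map_add, map_pow]
      linear_combination hxC
    have hXne : (X - C x₃ : ℚ[X]) ≠ 0 := X_sub_C_ne_zero x₃
    have g1 : g - C (l ^ 2) * (X - C x₃) = (X - C x₁) * (X - C x₂) := by
      apply mul_left_cancel₀ hXne
      have hlC := congrArg (C : ℚ → ℚ[X]) hl0
      simp only [map_add, map_mul, map_sub, map_zero] at hlC
      rw [hF] at e1
      have e3 : (C l * (X - C x₁) + C y₁ : ℚ[X]) = C l * (X - C x₃) := by linear_combination hlC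
      rw [e3] at e1
      simp only [map_pow]
      linear_combination -e1
    have g2 : g - C (m ^ 2) * (X - C x₃) = (X - C r) ^ 2 := by
      apply mul_left_cancel₀ hXne
      have hlC := congrArg (C : ℚ → ℚ[X]) hm0
      simp only [map_add, map_mul, map_sub, map_zero] at hlC
      rw [hF] at e2
      have e3 : (C m * (X - C r) + C s : ℚ[X]) = C m * (X - C x₃) := by linear_combination hlC
      rw [e3] at e2
      simp only [map_pow]
      linear_combination -e2
    have ge1 : g.eval x₃ = (x₃ - x₁) * (x₃ - x₂) := by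
      have := congrArg (eval x₃) g1
      simpa using this
    have ge2 : g.eval x₃ = (x₃ - r) ^ 2 := by
      have := congrArg (eval x₃) g2
      simpa using this
    have hrne : x₃ - r ≠ 0 := by
      intro h
      rw [h, mul_zero, zero_add] at hm0
      exact hs0 hm0
    set κ : ℚ := ((x₃ - r) - l / m * (x₃ - r)) / (x₃ - r) ^ 2 with hκ
    refine ⟨C (l / m) * (X - C r) + C κ * g, ?_⟩
    set K : ℚ[X] := C (κ ^ 2) * g + C (2 * κ * (l / m)) * (X - C r) + C ((l / m) ^ 2 - 1) with hK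
    have hprod : (C (l / m) * (X - C r) + C κ * g) ^ 2 - (C x₁ - X) * (C x₂ - X) = g * K := by
      have hlm : C (l / m) ^ 2 * C (m ^ 2) = (C (l ^ 2) : ℚ[X]) := by
        rw [← C_pow, ← C_mul]; congr 1; field_simp
      rw [hK]
      simp only [map_mul, map_pow, map_sub, map_one, map_ofNat] at hlm g1 g2 ⊢
      linear_combination -C (l / m) ^ 2 * g2 + g1 - (X - C x₃) * hlm
    have hK0 : K.eval x₃ = 0 := by
      have h5 := congrArg (eval x₃) hprod
      simp only [eval_pow, eval_add, eval_mul, eval_sub, eval_C, eval_X] at h5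
      have h6 : κ * g.eval x₃ = (x₃ - r) - l / m * (x₃ - r) := by
        rw [ge2, hκ]
        field_simp
      rw [h6] at h5
      have h7 : g.eval x₃ ≠ 0 := by rw [ge2]; exact pow_ne_zero _ hrne
      have h8 : g.eval x₃ * K.eval x₃ = 0 := by
        rw [← h5]
        linear_combination ge1 - ge2
      exact (mul_eq_zero.mp h8).resolve_left h7
    obtain ⟨M, hM⟩ := dvd_iff_isRoot.mpr hK0
    exact ⟨M, by rw [hprod, hF, hM]; ring⟩
  · have hr : r ^ 3 + A * r + B ≠ 0 := by rw [← hs]; exact pow_ne_zero _ hs0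
    obtain ⟨N, hN⟩ := inv_mod hx3
    obtain ⟨N', hN'⟩ := inv_mod hr
    refine ⟨(C l * (X - C x₁) + C y₁) * (C m * (X - C r) + C s) * N * N', ?_⟩
    set F := FQ A B with hF
    rw [← Ideal.mem_span_singleton, ← Ideal.Quotient.eq_zero_iff_mem] at hN hN' ⊢
    set π := Ideal.Quotient.mk (Ideal.span {F}) with hπ
    have hπF : π F = 0 := Ideal.Quotient.eq_zero_iff_mem.mpr (Ideal.mem_span_singleton_self F)
    have f1 := congrArg π e1
    have f2 := congrArg π e2
    simp only [map_mul, map_sub, map_pow, map_add, map_one, hπF, zero_add] at hN hN' f1 f2 ⊢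
    set a := π (C x₁)
    set b := π (C x₂)
    set c := π (C x₃)
    set t := π X
    set e := π (C r)
    set n := π N
    set n' := π N'
    set Λ := π (C l) * (t - a) + π (C y₁)
    set Λ' := π (C m) * (t - e) + π (C s)
    have k1 : n * (c - t) = 1 := by linear_combination hN
    have k2 : n' * (e - t) = 1 := by linear_combination hN'
    calc (Λ * Λ' * n * n') ^ 2 - (a - t) * (b - t)
        = Λ ^ 2 * Λ' ^ 2 * n ^ 2 * n' ^ 2 - (a - t) * (b - t) := by ring
      _ = ((a - t) * (b - t) * (c - t)) * ((e - t) * (e - t) * (c - t)) * n ^ 2 * n' ^ 2 -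
          (a - t) * (b - t) := by rw [f1, f2]
      _ = (a - t) * (b - t) * ((n * (c - t)) ^ 2 * (n' * (e - t)) ^ 2 - 1) := by ring
      _ = 0 := by rw [k1, k2]; ring

end Pool.Agent.U133.WR
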