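import Pool.Agent.U133.WR.Five
import Pool.Agent.U133.WR.Alg

set_option autoImplicit false

/-!
# The group law and the growth
-/

namespace Pool.Agent.U133.WR

open Polynomial Finset Pool.Agent.U133.GP WeierstrassCurve.Affine

/-- the curve `y ^ 2 = x ^ 3 + A x + B` over `ℚ` -/
def EC (A B : ℤ) : WeierstrassCurve.Affine ℚ := ⟨0, 0, 0, A, B⟩

lemma eqn_of {A B : ℤ} {x y : ℚ} (h : (EC A B).Nonsingular x y) : y ^ 2 = x ^ 3 + A * x + B := by
  have h1 := (equation_iff _ _).mp h.1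
  simp only [EC] at h1
  linear_combination h1

lemma nonsing {A B : ℤ} (hD : 4 * A ^ 3 + 27 * B ^ 2 ≠ 0) {x y : ℚ}
    (h : y ^ 2 = x ^ 3 + A * x + B) : (EC A B).Nonsingular x y := by
  have hD' : (4 * (A : ℚ) ^ 3 + 27 * (B : ℚ) ^ 2) ≠ 0 := by exact_mod_cast hD
  have hΔ : (EC A B).Δ ≠ 0 := by
    have : (EC A B).Δ = -16 * (4 * (A : ℚ) ^ 3 + 27 * (B : ℚ) ^ 2) := by
      simp [EC, WeierstrassCurve.Δ, WeierstrassCurve.b₂, WeierstrassCurve.b₄,
        WeierstrassCurve.b₆, WeierstrassCurve.b₈]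
      ring
    rw [this]
    exact mul_ne_zero (by norm_num) hD'
  refine (equation_iff_nonsingular_of_Δ_ne_zero hΔ).mp ?_
  rw [equation_iff]
  simp only [EC]
  linear_combination h

lemma same {A B : ℤ} (hD : 4 * A ^ 3 + 27 * B ^ 2 ≠ 0) {x₁ y₁ x₂ y₂ : ℚ}
    (h₁ : (EC A B).Nonsingular x₁ y₁) (h₂ : (EC A B).Nonsingular x₂ y₂) (hx : x₁ ≠ x₂)
    (R : (EC A B).Point) (h : Point.some x₁ y₁ h₁ = Point.some x₂ y₂ h₂ + (R + R)) :
    ∃ Q : ℚ[X], FQ A B ∣ Q ^ 2 - (C x₁ - X) * (C x₂ - X) := by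
  have hD' : (4 * (A : ℚ) ^ 3 + 27 * (B : ℚ) ^ 2) ≠ 0 := by exact_mod_cast hD
  rcases R with _ | ⟨r, s, hr⟩
  · exfalso
    have : Point.some x₁ y₁ h₁ = Point.some x₂ y₂ h₂ := by
      rw [h]
      change Point.some x₂ y₂ h₂ + ((0 : (EC A B).Point) + 0) = _
      rw [add_zero, add_zero]
    rw [Point.some.injEq] at this
    exact hx this.1
  · by_cases hs0 : s = 0
    · exfalso
      have h0 : (Point.some r s hr + Point.some r s hr : (EC A B).Point) = 0 :=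
        Point.add_self_of_Y_eq (by simp [negY, EC, hs0])
      rw [h0, add_zero, Point.some.injEq] at h
      exact hx h.1
    · have hne : s ≠ (EC A B).negY r s := by
        simp only [negY, EC]
        intro h
        apply hs0
        linarith
      have h2 := Point.add_self_of_Y_ne (h₁ := hr) hne
      have h3 : Point.some x₁ y₁ h₁ + -Point.some x₂ y₂ h₂ =
          Point.some r s hr + Point.some r s hr := by
        rw [h]; abel
      rw [Point.neg_some, Point.add_of_X_ne hx, h2, Point.some.injEq] at h3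
      obtain ⟨h4, -⟩ := h3
      have hsl1 : (EC A B).slope x₁ x₂ y₁ ((EC A B).negY x₂ y₂) = (y₁ + y₂) / (x₁ - x₂) := by
        rw [slope_of_X_ne hx]
        simp [negY, EC]
      have hsl2 : (EC A B).slope r r s s = (3 * r ^ 2 + A) / (2 * s) := by
        rw [slope_of_Y_ne rfl hne]
        simp [negY, EC]
        congr 1
        ring
      rw [hsl1, hsl2] at h4
      simp only [addX, EC] at h4
      have hsub : x₁ - x₂ ≠ 0 := sub_ne_zero.mpr hx
      exact square (A := A) (B := B) (l := (y₁ + y₂) / (x₁ - x₂)) (m := (3 * r ^ 2 + A) / (2 * s))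
        (x₃ := ((y₁ + y₂) / (x₁ - x₂)) ^ 2 - x₁ - x₂) hD' (eqn_of h₁) (eqn_of h₂) hx
        (by field_simp) rfl (eqn_of hr) hs0 (by field_simp) (by linear_combination h4)

/-- the growth in one class -/
theorem growth {A B : ℤ} (hD : 4 * A ^ 3 + 27 * B ^ 2 ≠ 0) {w : ℝ} (hw : 0 ≤ w)
    (hA : |(A : ℝ)| ≤ w ^ 2) (hB : |(B : ℝ)| ≤ w ^ 3) (Y : ℝ) (n : ℕ) :
    ∀ X : ℝ, 0 < X → 8 * w ≤ X →
    16 * Y / (3 * |((4 * A ^ 3 + 27 * B ^ 2 : ℤ) : ℝ)|) <
      (16 * X / (3 * |((4 * A ^ 3 + 27 * B ^ 2 : ℤ) : ℝ)|)) ^ (3 ^ n) →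
    ∀ S : Finset ℤ, (∀ x ∈ S, X ≤ (x : ℝ) ∧ (x : ℝ) ≤ Y) →
      (∀ x ∈ S, ∀ y ∈ S, SameClass (cub A B) x y) → S.card ≤ 4 * n := by
  classical
  set D : ℤ := 4 * A ^ 3 + 27 * B ^ 2 with hDdef
  have hD0 : 0 < |(D : ℝ)| := by
    rw [abs_pos]; exact_mod_cast hD
  have hmono : ∀ s t : ℝ, 16 * s / (3 * |(D : ℝ)|) < 16 * t / (3 * |(D : ℝ)|) → s < t := by
    intro s t h
    rw [div_lt_div_iff_of_pos_right (by positivity)] at h
    linarith
  have hempty : ∀ (X : ℝ) (S : Finset ℤ), Y < X → (∀ x ∈ S, X ≤ (x : ℝ) ∧ (x : ℝ) ≤ Y) →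
      S = ∅ := by
    intro X S hXY hS
    rw [eq_empty_iff_forall_notMem]
    intro x hx
    linarith [(hS x hx).1, (hS x hx).2]
  induction n with
  | zero =>
    intro X hX0 hX hY S hS _
    rw [pow_zero, pow_one] at hY
    rw [hempty X S (hmono _ _ hY) hS]
    simp
  | succ n ih =>
    intro X hX0 hX hY S hS hcl
    set X' : ℝ := 256 * X ^ 3 / (9 * (D : ℝ) ^ 2) with hX'
    have hD2 : (D : ℝ) ^ 2 = |(D : ℝ)| ^ 2 := (sq_abs _).symm
    have hz : 16 * X' / (3 * |(D : ℝ)|) = (16 * X / (3 * |(D : ℝ)|)) ^ 3 := by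
      rw [hX', hD2]
      field_simp
      ring
    have hY' : 16 * Y / (3 * |(D : ℝ)|) < (16 * X' / (3 * |(D : ℝ)|)) ^ (3 ^ n) := by
      rw [hz, ← pow_mul, ← pow_succ']
      exact hY
    rcases le_or_gt X X' with hXX | hXX
    · have h1 := ih X' (hX0.trans_le hXX) (hX.trans hXX) hY'
        (S.filter fun x => ¬ (x : ℝ) ≤ X') (fun x hx => by
          rw [mem_filter, not_le] at hx
          exact ⟨hx.2.le, (hS x hx.1).2⟩)
        (fun x hx y hy => hcl x (mem_filter.mp hx).1 y (mem_filter.mp hy).1)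
      have h2 := four hD hw hA hB X X' hX0 hX (by
        have : (D : ℝ) ≠ 0 := by exact_mod_cast hD
        rw [hX', ← hDdef]
        refine le_of_eq ?_
        field_simp) (S.filter fun x => (x : ℝ) ≤ X') (fun x hx => by
          rw [mem_filter] at hx
          exact ⟨(hS x hx.1).1, hx.2⟩)
        (fun x hx y hy => hcl x (mem_filter.mp hx).1 y (mem_filter.mp hy).1)
      have h3 := card_filter_add_card_filter_not (s := S) (fun x : ℤ => (x : ℝ) ≤ X')
      calc S.card = _ := h3.symm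
        _ ≤ 4 + 4 * n := add_le_add h2 h1
        _ = _ := by ring
    · -- here the lower end is too small
      have hzz : (16 * X / (3 * |(D : ℝ)|)) ^ 3 < 16 * X / (3 * |(D : ℝ)|) := by
        rw [← hz]
        exact (div_lt_div_iff_of_pos_right (by positivity)).mpr (by linarith)
      set z := 16 * X / (3 * |(D : ℝ)|) with hzdef
      have hz0 : 0 < z := by positivity
      have hz1 : z < 1 := by
        by_contra h
        push Not at h
        have : z ≤ z ^ 3 := by nlinarith [mul_nonneg hz0.le (by nlinarith : (0 : ℝ) ≤ z ^ 2 - 1)]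
        linarith
      have h4 : z ^ (3 ^ (n + 1)) ≤ z := by
        calc z ^ (3 ^ (n + 1)) ≤ z ^ 1 :=
              pow_le_pow_of_le_one hz0.le hz1.le (Nat.one_le_pow _ _ (by norm_num))
          _ = z := pow_one z
      rw [hempty X S (hmono _ _ (hY.trans_le h4)) hS]
      simp

lemma sameClass_of {A B : ℤ} {x y : ℤ}
    (h : ∃ Q : ℚ[X], FQ A B ∣ Q ^ 2 - (C (x : ℚ) - X) * (C (y : ℚ) - X)) :
    SameClass (cub A B) x y := by
  obtain ⟨Q, hQ⟩ := h
  refine ⟨1, one_ne_zero, Q, ?_⟩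
  rw [cub_map, C_1, one_mul]
  exact hQ

/-- **All classes.** -/
theorem all {A B : ℤ} (hD : 4 * A ^ 3 + 27 * B ^ 2 ≠ 0) (X Y : ℝ) (hX : 0 < X)
    (hA : 64 * |(A : ℝ)| ≤ X ^ 2) (hB : 512 * |(B : ℝ)| ≤ X ^ 3) (n : ℕ)
    (hY : 16 * Y / (3 * |((4 * A ^ 3 + 27 * B ^ 2 : ℤ) : ℝ)|) <
      (16 * X / (3 * |((4 * A ^ 3 + 27 * B ^ 2 : ℤ) : ℝ)|)) ^ (3 ^ n))
    (N : ℕ) (Q : Fin N → (EC A B).Point) (hQ : ∀ P : (EC A B).Point, ∃ i R, P = Q i + (R + R))
    (S : Finset ℤ) (hS : ∀ x ∈ S, X ≤ (x : ℝ) ∧ (x : ℝ) ≤ Y ∧ ∃ y : ℤ, y ^ 2 = x ^ 3 + A * x + B) :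
    S.card ≤ 4 * n * N := by
  classical
  have hex : ∀ x ∈ S, ∃ (i : Fin N) (y : ℚ) (h : (EC A B).Nonsingular (x : ℚ) y)
      (R : (EC A B).Point), Point.some (x : ℚ) y h = Q i + (R + R) := by
    intro x hx
    obtain ⟨-, -, y, hy⟩ := hS x hx
    have h1 : ((y : ℤ) : ℚ) ^ 2 = (x : ℚ) ^ 3 + A * x + B := by exact_mod_cast hy
    obtain ⟨i, R, h2⟩ := hQ (Point.some (x : ℚ) (y : ℚ) (nonsing hD h1))
    exact ⟨i, y, nonsing hD h1, R, h2⟩
  rcases S.eq_empty_or_nonempty with rfl | ⟨x₁, hx₁⟩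
  · simp
  have hN : Nonempty (Fin N) := ⟨(hex x₁ hx₁).choose⟩
  choose! i hi using hex
  have hw : (0 : ℝ) ≤ X / 8 := by positivity
  have hfib : ∀ j : Fin N, (S.filter fun x => i x = j).card ≤ 4 * n := by
    intro j
    refine growth hD hw (by linarith [show (X / 8) ^ 2 = X ^ 2 / 64 by ring])
      (by linarith [show (X / 8) ^ 3 = X ^ 3 / 512 by ring]) Y n X hX (by linarith) hY _
      (fun x hx => ⟨(hS x (mem_filter.mp hx).1).1, (hS x (mem_filter.mp hx).1).2.1⟩) ?_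
    intro x hx y hy
    by_cases hxy : x = y
    · subst hxy
      exact sameClass_of ⟨C (x : ℚ) - Polynomial.X, by rw [← sq, sub_self]; exact dvd_zero _⟩
    · obtain ⟨hx1, hx2⟩ := mem_filter.mp hx
      obtain ⟨hy1, hy2⟩ := mem_filter.mp hy
      obtain ⟨u, hu, R, hR⟩ := hi x hx1
      obtain ⟨v, hv, R', hR'⟩ := hi y hy1
      refine sameClass_of (same hD hu hv (by exact_mod_cast hxy) (R - R') ?_)
      rw [hR, hR', hx2, hy2]
      abel
  calc S.card = ∑ j : Fin N, (S.filter fun x => i x = j).card :=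
        card_eq_sum_card_fiberwise (fun x _ => mem_coe.mpr (mem_univ _))
    _ ≤ ∑ _j : Fin N, 4 * n := sum_le_sum fun j _ => hfib j
    _ = 4 * n * N := by rw [sum_const, card_univ, Fintype.card_fin, smul_eq_mul]; ring

end Pool.Agent.U133.WR
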