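import Pool.Agent.U133.GP.Main

set_option autoImplicit false

/-!
# Cubic polynomials `T ^ 3 + A T + B`: explicit repulsion
-/

namespace Pool.Agent.U133.WR

open Polynomial Finset Pool.Agent.U133.GP

/-- `T ^ 3 + A T + B` -/
noncomputable def cub (A B : ℤ) : ℤ[X] := X ^ 3 + C A * X + C B

section basic

variable (A B : ℤ)

lemma cub_monic : (cub A B).Monic := by rw [cub]; monicity!

lemma cub_natDegree : (cub A B).natDegree = 3 := by rw [cub]; compute_degree!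

lemma cub_ne : cub A B ≠ 0 := (cub_monic A B).ne_zero

lemma cub_c0 : (cub A B).coeff 0 = B := by simp [cub, coeff_X, coeff_C]

lemma cub_c1 : (cub A B).coeff 1 = A := by
  simp only [cub, coeff_add, coeff_X_pow, coeff_C_mul, coeff_X, coeff_C]; norm_num

lemma cub_c2 : (cub A B).coeff 2 = 0 := by
  simp only [cub, coeff_add, coeff_X_pow, coeff_C_mul, coeff_X, coeff_C]; norm_num

lemma cub_aeval {K : Type} [Field K] [CharZero K] (t : K) :
    aeval t (cub A B) = t ^ 3 + A * t + B := by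
  simp [cub]

lemma cub_map : (cub A B).map (Int.castRingHom ℚ) = X ^ 3 + C (A : ℚ) * X + C (B : ℚ) := by
  simp [cub]

lemma cub_sep (hD : 4 * A ^ 3 + 27 * B ^ 2 ≠ 0) :
    ((cub A B).map (Int.castRingHom ℚ)).Separable := by
  have hD' : (4 * (A : ℚ) ^ 3 + 27 * (B : ℚ) ^ 2) ≠ 0 := by exact_mod_cast hD
  rw [cub_map, Separable]
  refine ⟨C (4 * (A : ℚ) ^ 3 + 27 * (B : ℚ) ^ 2)⁻¹ * (C (27 * (B : ℚ)) - C (18 * (A : ℚ)) * X),
    C (4 * (A : ℚ) ^ 3 + 27 * (B : ℚ) ^ 2)⁻¹ * (C (6 * (A : ℚ)) * X ^ 2 - C (9 * (B : ℚ)) * X +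
      C (4 * (A : ℚ) ^ 2)), ?_⟩
  have hd : derivative (X ^ 3 + C (A : ℚ) * X + C (B : ℚ) : ℚ[X]) = C 3 * X ^ 2 + C (A : ℚ) := by
    have h3 : (C 3 : ℚ[X]) = C 2 + 1 := by rw [← C_1, ← C_add]; norm_num
    rw [h3]
    simp
  rw [hd]
  have h1 : C (4 * (A : ℚ) ^ 3 + 27 * (B : ℚ) ^ 2)⁻¹ * C (4 * (A : ℚ) ^ 3 + 27 * (B : ℚ) ^ 2) =
      (1 : ℚ[X]) := by
    rw [← C_mul, inv_mul_cancel₀ hD', C_1]
  simp only [map_add, map_mul, map_pow, map_sub, map_ofNat] at h1 ⊢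
  linear_combination h1

end basic

section roots

variable {A B : ℤ} (hD : 4 * A ^ 3 + 27 * B ^ 2 ≠ 0)

lemma root_eq {θ : ℂ} (hθ : θ ∈ Rt (cub A B)) : θ ^ 3 + A * θ + B = 0 := by
  rw [← cub_aeval]
  exact (mem_Rt (cub_ne A B)).mp hθ

include hD in
lemma card3 : (Rt (cub A B)).card = 3 := by
  rw [card_Rt (cub_sep A B hD), cub_natDegree]

include hD in
lemma Wt_cub {θ : ℂ} (hθ : θ ∈ Rt (cub A B)) : Wt (Rt (cub A B)) θ = 3 * θ ^ 2 + A := by
  have h1 := deriv_Rt (cub_sep A B hD) hθ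
  rw [(cub_monic A B).leadingCoeff] at h1
  have h2 : aeval θ (derivative (cub A B)) = 3 * θ ^ 2 + A := by
    simp [cub]
    exact Or.inl (map_ofNat (aeval θ) 3)
  rw [h2] at h1
  rw [h1]; simp

include hD in
lemma rr_cub_rec (k : ℕ) : rr (Rt (cub A B)) (k + 3) =
    -(B * rr (Rt (cub A B)) k + A * rr (Rt (cub A B)) (k + 1)) := by
  have hE := eqn_Rt (cub_sep A B hD) (cub_ne A B) (A.natAbs + B.natAbs + 1) (by
    intro i
    rcases i with _ | _ | _ | _ | i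
    · rw [cub_c0]; push_cast; linarith [abs_nonneg A, Int.abs_eq_natAbs B ▸ le_refl |B|, abs_nonneg B]
    · rw [cub_c1]; push_cast; linarith [abs_nonneg A, abs_nonneg B]
    · rw [cub_c2]; simp; positivity
    · have : (cub A B).coeff 3 = 1 := by
        have := (cub_monic A B).coeff_natDegree
        rwa [cub_natDegree] at this
      rw [this]; push_cast; simp; positivity
    · rw [coeff_eq_zero_of_natDegree_lt (by rw [cub_natDegree]; omega)]; simp; positivity)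
  have h := rr_rec hE k
  rw [card3 hD] at h
  rw [h, sum_range_succ, sum_range_succ, sum_range_succ, sum_range_zero]
  rw [(cub_monic A B).leadingCoeff, cub_c0, cub_c1, cub_c2]
  push_cast
  ring_nf

include hD in
lemma rr_cub {w : ℝ} (hw : 0 ≤ w) (hA : |(A : ℝ)| ≤ w ^ 2) (hB : |(B : ℝ)| ≤ w ^ 3) (l : ℕ) :
    ‖rr (Rt (cub A B)) (2 + l)‖ ≤ (4 / 3 * w) ^ l := by
  have h3 := card3 hD
  induction l using Nat.strong_induction_on with
  | _ l ih =>
    rcases l with _ | _ | _ | l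
    · rw [rr_eq (by omega)]; simp
    · rw [show 2 + 1 = 0 + 3 by ring, rr_cub_rec hD, rr_lt (by omega), rr_lt (by omega)]
      simp
      positivity
    · rw [show 2 + 2 = 1 + 3 by ring, rr_cub_rec hD, rr_lt (k := 1) (by omega),
        rr_eq (k := 1 + 1) (by omega)]
      simp
      have : (4 / 3 * w) ^ 2 = 16 / 9 * w ^ 2 := by ring
      rw [this]
      nlinarith [sq_nonneg w]
    · rw [show 2 + (l + 1 + 1 + 1) = (2 + l) + 3 by ring, rr_cub_rec hD, norm_neg]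
      have h1 := ih l (by omega)
      have h2 := ih (l + 1) (by omega)
      rw [show 2 + (l + 1) = 2 + l + 1 by ring] at h2
      calc ‖(B : ℂ) * rr (Rt (cub A B)) (2 + l) + A * rr (Rt (cub A B)) (2 + l + 1)‖
          ≤ ‖(B : ℂ) * rr (Rt (cub A B)) (2 + l)‖ + ‖(A : ℂ) * rr (Rt (cub A B)) (2 + l + 1)‖ :=
            norm_add_le _ _
        _ ≤ w ^ 3 * (4 / 3 * w) ^ l + w ^ 2 * (4 / 3 * w) ^ (l + 1) := by
            rw [norm_mul, norm_mul, Complex.norm_intCast, Complex.norm_intCast]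
            exact add_le_add (mul_le_mul hB h1 (norm_nonneg _) (by positivity))
              (mul_le_mul hA h2 (norm_nonneg _) (by positivity))
        _ ≤ (4 / 3 * w) ^ (l + 1 + 1 + 1) := by
            have e : (4 / 3 * w) ^ (l + 1 + 1 + 1) = 64 / 27 * w ^ 3 * (4 / 3 * w) ^ l := by ring
            have e2 : w ^ 2 * (4 / 3 * w) ^ (l + 1) = 4 / 3 * w ^ 3 * (4 / 3 * w) ^ l := by ring
            rw [e, e2]
            have : 0 ≤ w ^ 3 * (4 / 3 * w) ^ l := by positivity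
            nlinarith

lemma root_le {w : ℝ} (hw : 0 ≤ w) (hA : |(A : ℝ)| ≤ w ^ 2) (hB : |(B : ℝ)| ≤ w ^ 3) {θ : ℂ}
    (hθ : θ ∈ Rt (cub A B)) : ‖θ‖ ≤ 4 / 3 * w := by
  by_contra hcon
  push Not at hcon
  have h1 : θ ^ 3 = -(A * θ + B) := by linear_combination root_eq hθ
  have h2 : ‖θ‖ ^ 3 ≤ w ^ 2 * ‖θ‖ + w ^ 3 := by
    rw [← norm_pow, h1, norm_neg]
    refine (norm_add_le _ _).trans ?_
    rw [norm_mul, Complex.norm_intCast, Complex.norm_intCast]
    exact add_le_add (mul_le_mul_of_nonneg_right hA (norm_nonneg _)) hB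
  have h0 : 0 < ‖θ‖ := lt_of_le_of_lt (by positivity) hcon
  have hw' : w < 3 / 4 * ‖θ‖ := by linarith
  have h3 : w ^ 2 ≤ (3 / 4 * ‖θ‖) ^ 2 := pow_le_pow_left₀ hw hw'.le 2
  have h4 : w ^ 3 ≤ (3 / 4 * ‖θ‖) ^ 3 := pow_le_pow_left₀ hw hw'.le 3
  have h5 : 0 < ‖θ‖ ^ 3 := by positivity
  have h6 : w ^ 2 * ‖θ‖ ≤ (3 / 4 * ‖θ‖) ^ 2 * ‖θ‖ := mul_le_mul_of_nonneg_right h3 h0.le
  nlinarith

include hD in
/-- the divided difference -/
lemma pair3 {w : ℝ} (hw : 0 ≤ w) (hA : |(A : ℝ)| ≤ w ^ 2) (hB : |(B : ℝ)| ≤ w ^ 3) (u v : ℝ)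
    (hv : 0 < v) (huv : v < u) (hu : 8 * w * u ≤ 1) :
    ∑ θ ∈ Rt (cub A B), gam u θ * gam v θ / Wt (Rt (cub A B)) θ ≠ 0 ∧
      ‖∑ θ ∈ Rt (cub A B), gam u θ * gam v θ / Wt (Rt (cub A B)) θ‖ ≤ 3 / 16 * (u - v) ^ 2 := by
  have h3 := card3 hD
  have hu0 : 0 < u := hv.trans huv
  set m := (u + v) / 2 with hm
  set p := u * v with hp
  have hm0 : 0 < m := by positivity
  have hp0 : 0 ≤ p := by positivity
  have hpm : p ≤ m ^ 2 := by rw [hp, hm]; nlinarith [sq_nonneg (u - v)]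
  have hgap : (m ^ 2 - p) / 2 = (u - v) ^ 2 / 8 := by rw [hp, hm]; ring
  have hmA : 2 * m * (4 / 3 * w) ≤ 1 / 3 := by
    have : 2 * m ≤ 2 * u := by rw [hm]; linarith
    nlinarith
  have hlt : ∀ θ ∈ Rt (cub A B), 2 * m * ‖θ‖ < 1 := by
    intro θ h
    have := mul_le_mul_of_nonneg_left (root_le hw hA hB h) (by positivity : 0 ≤ 2 * m)
    linarith
  have e1 : ∑ θ ∈ Rt (cub A B), gam u θ * gam v θ / Wt (Rt (cub A B)) θ =
      ∑' k, (ec m p k : ℂ) * rr (Rt (cub A B)) k := by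
    have hse := sum_eq (Rt (cub A B)) hm0.le hp0 hpm 1 (by simp) hlt
    simp only [one_mul, one_pow] at hse
    rw [← hse]
    refine sum_congr rfl fun θ h => ?_
    have h1 : u * ‖θ‖ < 1 := by
      have := hlt θ h
      have h2 : u * ‖θ‖ ≤ 2 * m * ‖θ‖ :=
        mul_le_mul_of_nonneg_right (by rw [hm]; linarith) (norm_nonneg _)
      linarith
    have h4 : v * ‖θ‖ < 1 := by
      have h2 : v * ‖θ‖ ≤ u * ‖θ‖ := mul_le_mul_of_nonneg_right huv.le (norm_nonneg _)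
      linarith
    rw [gam_mul hu0.le hv.le h1 h4]
  have hsize := sum_size hm0.le hp0 hpm 0 (fun k => rr (Rt (cub A B)) k) (4 / 3 * w)
    (by positivity) (fun k hk => rr_lt (by omega))
    (by rw [rr_eq (by omega)]; simp)
    (fun l => by
      have := rr_cub hD hw hA hB l
      rwa [show 0 + 2 + l = 2 + l by ring])
    hmA
  have he : |ec m p (0 + 2)| = (u - v) ^ 2 / 8 := by
    rw [← hgap, zero_add, ← ec_two, abs_of_nonpos]
    have := ec_two m p
    have h0 : 0 ≤ (m ^ 2 - p) / 2 := by linarith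
    linarith
  rw [he] at hsize
  rw [e1]
  have hpos : 0 < (u - v) ^ 2 := by
    have : 0 < u - v := by linarith
    positivity
  constructor
  · intro h0
    rw [h0, norm_zero] at hsize
    linarith [hsize.1]
  · refine hsize.2.trans (le_of_eq ?_)
    ring

end roots

end Pool.Agent.U133.WR
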