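import Pool.Agent.U133.WR.Cub

set_option autoImplicit false

/-!
# Five points in a class
-/

namespace Pool.Agent.U133.WR

open Polynomial Finset Pool.Agent.U133.GP

section

variable {A B : ℤ} (hD : 4 * A ^ 3 + 27 * B ^ 2 ≠ 0)

lemma root_int {θ : ℂ} (hθ : θ ∈ Rt (cub A B)) : IsIntegral ℤ θ := by
  refine ⟨cub A B, cub_monic A B, ?_⟩
  have := (mem_Rt (cub_ne A B)).mp hθ
  rwa [aeval_def] at this

lemma int_cast (z : ℤ) : IsIntegral ℤ (z : ℂ) := by
  have := isIntegral_algebraMap (R := ℤ) (A := ℂ) (x := z)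
  simpa using this

include hD in
lemma zero3 (x y : ℤ) (β : ℂ → ℂ)
    (hβ : ∀ θ ∈ Rt (cub A B), β θ ^ 2 = (x - θ) * (y - θ))
    (hrat : ∃ q : ℚ, (∑ θ ∈ Rt (cub A B), β θ / Wt (Rt (cub A B)) θ) ^ 2 = (q : ℂ))
    (hsmall : (|((4 * A ^ 3 + 27 * B ^ 2 : ℤ) : ℝ)| *
      ‖∑ θ ∈ Rt (cub A B), β θ / Wt (Rt (cub A B)) θ‖) ^ 2 < 1) :
    ∑ θ ∈ Rt (cub A B), β θ / Wt (Rt (cub A B)) θ = 0 := by
  set T := ∑ θ ∈ Rt (cub A B), β θ / Wt (Rt (cub A B)) θ with hT
  set D : ℤ := 4 * A ^ 3 + 27 * B ^ 2 with hDdef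
  have hW : ∀ θ ∈ Rt (cub A B), (D : ℂ) / Wt (Rt (cub A B)) θ =
      6 * A * θ ^ 2 - 9 * B * θ + 4 * A ^ 2 := by
    intro θ hθ
    rw [div_eq_iff (Wt_ne θ), Wt_cub hD hθ, hDdef]
    push_cast
    linear_combination (-(18 * (A : ℂ) * θ) + 27 * B) * root_eq hθ
  have hZI : IsIntegral ℤ ((D : ℂ) * T) := by
    have e : (D : ℂ) * T = ∑ θ ∈ Rt (cub A B), (6 * A * θ ^ 2 - 9 * B * θ + 4 * A ^ 2) * β θ := by
      rw [hT, mul_sum]
      refine sum_congr rfl fun θ hθ => ?_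
      rw [← hW θ hθ]; ring
    rw [e]
    refine IsIntegral.sum _ fun θ hθ => ?_
    have h1 := root_int hθ
    have h6 : IsIntegral ℤ (6 : ℂ) := by exact_mod_cast int_cast 6
    have h9 : IsIntegral ℤ (9 : ℂ) := by exact_mod_cast int_cast 9
    have h4 : IsIntegral ℤ (4 : ℂ) := by exact_mod_cast int_cast 4
    refine IsIntegral.mul ((((h6.mul (int_cast A)).mul (h1.pow 2)).sub
      ((h9.mul (int_cast B)).mul h1)).add (h4.mul ((int_cast A).pow 2))) ?_
    apply IsIntegral.of_pow (n := 2) (by norm_num)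
    rw [hβ θ hθ]
    exact ((int_cast x).sub h1).mul ((int_cast y).sub h1)
  obtain ⟨q, hq⟩ := hrat
  set w : ℚ := (D : ℚ) ^ 2 * q with hw
  have hwC : (w : ℂ) = ((D : ℂ) * T) ^ 2 := by
    rw [hw, mul_pow, hq]; push_cast; ring
  have hwI : IsIntegral ℤ w := by
    have h1 : IsIntegral ℤ (algebraMap ℚ ℂ w) := by
      rw [eq_ratCast, hwC]; exact hZI.pow 2
    exact (isIntegral_algebraMap_iff (algebraMap ℚ ℂ).injective).mp h1
  obtain ⟨z, hz⟩ := IsIntegrallyClosed.isIntegral_iff.mp hwI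
  have hz' : (z : ℚ) = w := by simpa using hz
  have hznorm : |(z : ℝ)| < 1 := by
    have h1 : ((z : ℚ) : ℂ) = (w : ℂ) := by rw [hz']
    rw [hwC] at h1
    have h2 := congrArg norm h1
    rw [norm_pow, norm_mul, Complex.norm_intCast] at h2
    push_cast at h2
    rw [Complex.norm_intCast] at h2
    rw [h2]
    exact_mod_cast hsmall
  have hz0 : z = 0 := by
    have h1 : |z| < 1 := by
      have : ((|z| : ℤ) : ℝ) < ((1 : ℤ) : ℝ) := by push_cast; exact hznorm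
      exact_mod_cast this
    exact Int.abs_lt_one_iff.mp h1
  have hD0 : (D : ℂ) ≠ 0 := by exact_mod_cast hD
  have h3 : ((D : ℂ) * T) ^ 2 = 0 := by
    rw [← hwC, ← hz', hz0]; simp
  have h4 := pow_eq_zero_iff (two_ne_zero) |>.mp h3
  exact (mul_eq_zero.mp h4).resolve_left hD0

lemma sgr_pos {x : ℤ} (hx : 0 < x) : sgr x = 1 := by rw [sgr, if_pos hx]

lemma gx_pos {x : ℤ} (hx : 0 < x) (θ : ℂ) : gx x θ = gam (1 / (x : ℝ)) θ := by
  have : (0 : ℝ) < x := by exact_mod_cast hx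
  rw [gx, sgr_pos hx, abs_of_pos this]
  simp

include hD in
/-- **At most four in a window.** -/
theorem four {w : ℝ} (hw : 0 ≤ w) (hA : |(A : ℝ)| ≤ w ^ 2) (hB : |(B : ℝ)| ≤ w ^ 3)
    (X Y : ℝ) (hX0 : 0 < X) (hX : 8 * w ≤ X)
    (hY : 9 * ((4 * A ^ 3 + 27 * B ^ 2 : ℤ) : ℝ) ^ 2 * Y ≤ 256 * X ^ 3) (S : Finset ℤ)
    (hS : ∀ x ∈ S, X ≤ (x : ℝ) ∧ (x : ℝ) ≤ Y)
    (hcl : ∀ x ∈ S, ∀ y ∈ S, SameClass (cub A B) x y) : S.card ≤ 4 := by
  classical
  have hf := cub_ne A B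
  have hs := cub_sep A B hD
  have h3 := card3 hD
  set D : ℤ := 4 * A ^ 3 + 27 * B ^ 2 with hDdef
  have hSpos : ∀ x ∈ S, 0 < x := by
    intro x hx
    have : (0 : ℝ) < x := hX0.trans_le (hS x hx).1
    exact_mod_cast this
  have hbig : ∀ x ∈ S, ∀ θ ∈ Rt (cub A B), ‖θ‖ < |(x : ℝ)| := by
    intro x hx θ hθ
    have h1 := (hS x hx).1
    have h2 := root_le hw hA hB hθ
    have h4 : (0 : ℝ) < x := hX0.trans_le h1
    rw [abs_of_pos h4]
    linarith
  by_contra hcon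
  push Not at hcon
  obtain ⟨x₀, hx₀⟩ : S.Nonempty := card_pos.mp (by omega)
  have hx₀' : (cub A B).eval x₀ ≠ 0 := by
    intro h0
    have h1 : (x₀ : ℂ) ∈ Rt (cub A B) := by
      rw [mem_Rt hf]
      have : aeval ((x₀ : ℤ) : ℂ) (cub A B) = (((cub A B).eval x₀ : ℤ) : ℂ) := by
        rw [aeval_def]
        have := eval₂_at_intCast (Int.castRingHom ℂ) (p := cub A B) x₀
        simpa using this
      rw [this, h0]; simp
    have h2 := hbig x₀ hx₀ _ h1
    rw [Complex.norm_intCast] at h2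
    exact lt_irrefl _ h2
  choose! b hb P hP using fun x hx => hcl x₀ hx₀ x hx
  obtain ⟨θs, hθs⟩ : (Rt (cub A B)).Nonempty := card_pos.mp (by omega)
  set q : ℤ → ℂ → ℂ := fun x θ => aeval θ (P x) / (gx x₀ θ * gx x θ) with hq
  have hgx0 : ∀ x ∈ S, ∀ θ ∈ Rt (cub A B), gx x θ ≠ 0 := by
    intro x hx θ hθ h0
    have h1 := gx_sq (hbig x hx θ hθ)
    rw [h0] at h1
    have h2 : (x : ℂ) = θ := by linear_combination -h1
    have h3 := hbig x hx θ hθ
    rw [← h2, Complex.norm_intCast] at h3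
    exact lt_irrefl _ h3
  have hqsq : ∀ x ∈ S, ∀ θ ∈ Rt (cub A B), q x θ ^ 2 = b x * (x₀ * x) := by
    intro x hx θ hθ
    have h1 := SameClass.eval hf (hP x hx) hθ
    simp only [hq]
    rw [div_pow, h1, mul_pow, div_eq_iff (mul_ne_zero (pow_ne_zero _ (hgx0 x₀ hx₀ θ hθ))
      (pow_ne_zero _ (hgx0 x hx θ hθ))), ← gx_sq (hbig x hx θ hθ), ← gx_sq (hbig x₀ hx₀ θ hθ)]
    ring
  set code : ℤ → Finset ℂ := fun x =>
    ((Rt (cub A B)).erase θs).filter (fun θ => q x θ = q x θs) with hcode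
  obtain ⟨x, hx, y, hy, hxy, hxyc⟩ := exists_ne_map_eq_of_card_lt_of_maps_to
    (s := S) (t := ((Rt (cub A B)).erase θs).powerset) (f := code) (by
      rw [card_powerset, card_erase_of_mem hθs, h3]
      omega) (by
      intro x _
      simp only [hcode, mem_coe, mem_powerset]
      exact filter_subset _ _)
  have key : ∀ x ∈ S, ∀ y ∈ S, (x : ℝ) < (y : ℝ) → code x = code y → False := by
    intro x hx y hy hlt hfil
    simp only [hcode] at hfil
    have hprod : ∀ θ ∈ Rt (cub A B), q x θ * q y θ = q x θs * q y θs := by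
      intro θ hθ
      by_cases he : θ = θs
      · rw [he]
      have hsx : q x θ ^ 2 = q x θs ^ 2 := by rw [hqsq x hx θ hθ, hqsq x hx θs hθs]
      have hsy : q y θ ^ 2 = q y θs ^ 2 := by rw [hqsq y hy θ hθ, hqsq y hy θs hθs]
      by_cases hmem : q x θ = q x θs
      · have h1 : θ ∈ ((Rt (cub A B)).erase θs).filter (fun θ => q x θ = q x θs) :=
          mem_filter.mpr ⟨mem_erase.mpr ⟨he, hθ⟩, hmem⟩
        rw [hfil] at h1
        rw [hmem, (mem_filter.mp h1).2]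
      · have h1 : ¬ q y θ = q y θs := by
          intro h
          have h2 : θ ∈ ((Rt (cub A B)).erase θs).filter (fun θ => q y θ = q y θs) :=
            mem_filter.mpr ⟨mem_erase.mpr ⟨he, hθ⟩, h⟩
          rw [← hfil] at h2
          exact hmem (mem_filter.mp h2).2
        have h3 : q x θ = -q x θs := (sq_eq_sq_iff_eq_or_eq_neg.mp hsx).resolve_left hmem
        have h4 : q y θ = -q y θs := (sq_eq_sq_iff_eq_or_eq_neg.mp hsy).resolve_left h1
        rw [h3, h4]; ring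
    have hx0 := hSpos x hx
    have hy0 := hSpos y hy
    set c : ℂ := q x θs * q y θs / x₀ with hcdef
    have hx₀C : (x₀ : ℂ) ≠ 0 := by exact_mod_cast (hSpos x₀ hx₀).ne'
    have hrat := rat_T hf hs (by rw [cub_natDegree]; norm_num) (P x * P y) x₀ hx₀'
      (fun θ => gam (1 / (x : ℝ)) θ * gam (1 / (y : ℝ)) θ) c
      (b x * b y * x * y) (by
        have h1 : (x : ℚ) ≠ 0 := by exact_mod_cast hx0.ne'
        have h2 : (y : ℚ) ≠ 0 := by exact_mod_cast hy0.ne'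
        exact mul_ne_zero (mul_ne_zero (mul_ne_zero (hb x hx) (hb y hy)) h1) h2) (by
        rw [hcdef, div_pow, mul_pow, hqsq x hx θs hθs, hqsq y hy θs hθs, div_eq_iff
          (pow_ne_zero _ hx₀C)]
        push_cast
        ring) (by
        intro θ hθ
        have h1 := hprod θ hθ
        have h2 : aeval θ (P x) = q x θ * (gx x₀ θ * gx x θ) := by
          simp only [hq]
          rw [div_mul_cancel₀ _ (mul_ne_zero (hgx0 x₀ hx₀ θ hθ) (hgx0 x hx θ hθ))]
        have h3 : aeval θ (P y) = q y θ * (gx x₀ θ * gx y θ) := by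
          simp only [hq]
          rw [div_mul_cancel₀ _ (mul_ne_zero (hgx0 x₀ hx₀ θ hθ) (hgx0 y hy θ hθ))]
        have h4 := gx_sq (hbig x₀ hx₀ θ hθ)
        rw [map_mul, h2, h3, ← h4, ← gx_pos hx0, ← gx_pos hy0]
        have h7 : c * x₀ = q x θs * q y θs := by rw [hcdef, div_mul_cancel₀ _ hx₀C]
        calc q x θ * (gx x₀ θ * gx x θ) * (q y θ * (gx x₀ θ * gx y θ))
            = (q x θ * q y θ) * gx x₀ θ ^ 2 * (gx x θ * gx y θ) := by ring
          _ = (c * x₀) * gx x₀ θ ^ 2 * (gx x θ * gx y θ) := by rw [h1, h7]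
          _ = _ := by ring)
    have hxr : (0 : ℝ) < x := by exact_mod_cast hx0
    have hyr : (0 : ℝ) < y := by exact_mod_cast hy0
    have hv : 0 < 1 / (y : ℝ) := by positivity
    have huv : 1 / (y : ℝ) < 1 / x := one_div_lt_one_div_of_lt hxr hlt
    obtain ⟨hT0, hTle⟩ := pair3 hD hw hA hB (1 / x) (1 / y) hv huv (by
      rw [mul_one_div, div_le_one hxr]; linarith [(hS x hx).1])
    set T := ∑ θ ∈ Rt (cub A B), gam (1 / (x : ℝ)) θ * gam (1 / (y : ℝ)) θ /
      Wt (Rt (cub A B)) θ with hT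
    set s := Real.sqrt ((x : ℝ) * y) with hsdef
    have hs0 : 0 < s := Real.sqrt_pos.mpr (by positivity)
    have hs2 : s ^ 2 = x * y := Real.sq_sqrt (by positivity)
    have hsum : ∑ θ ∈ Rt (cub A B), (s * (gam (1 / (x : ℝ)) θ * gam (1 / (y : ℝ)) θ)) /
        Wt (Rt (cub A B)) θ = s * T := by
      rw [hT, mul_sum]
      refine sum_congr rfl fun θ _ => ?_
      rw [mul_div_assoc]
    have hz := zero3 hD x y
      (fun θ => (s : ℂ) * (gam (1 / (x : ℝ)) θ * gam (1 / (y : ℝ)) θ)) ?_ ?_ ?_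
    · rw [hsum] at hz
      rcases mul_eq_zero.mp hz with h1 | h1
      · exact hs0.ne' (by exact_mod_cast h1)
      · exact hT0 h1
    · intro θ hθ
      have h1 := gx_sq (hbig x hx θ hθ)
      have h2 := gx_sq (hbig y hy θ hθ)
      rw [gx_pos hx0] at h1
      rw [gx_pos hy0] at h2
      have hsC : (s : ℂ) ^ 2 = x * y := by exact_mod_cast hs2
      rw [mul_pow, mul_pow, hsC, ← h1, ← h2]
      ring
    · obtain ⟨r, hr⟩ := hrat
      refine ⟨(x : ℚ) * y * r, ?_⟩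
      rw [hsum, mul_pow, hr]
      have hsC : (s : ℂ) ^ 2 = x * y := by exact_mod_cast hs2
      rw [hsC]
      push_cast
      ring
    · rw [hsum, norm_mul, Complex.norm_real, Real.norm_eq_abs, abs_of_pos hs0]
      have e : (|((4 * A ^ 3 + 27 * B ^ 2 : ℤ) : ℝ)| * (s * ‖T‖)) ^ 2 =
          (D : ℝ) ^ 2 * (x * y) * ‖T‖ ^ 2 := by
        rw [mul_pow, mul_pow, sq_abs, hs2, hDdef]; ring
      rw [e]
      have hu2 : (1 / (x : ℝ) - 1 / y) < 1 / x := by linarith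
      have hu0 : 0 < 1 / (x : ℝ) - 1 / y := by linarith
      have hT2 : ‖T‖ ^ 2 ≤ (3 / 16 * (1 / (x : ℝ) - 1 / y) ^ 2) ^ 2 :=
        pow_le_pow_left₀ (norm_nonneg _) hTle 2
      have hT3 : (3 / 16 * (1 / (x : ℝ) - 1 / y) ^ 2) ^ 2 < 9 / 256 * (1 / (x : ℝ)) ^ 4 := by
        have := pow_lt_pow_left₀ hu2 hu0.le (n := 4) (by norm_num)
        nlinarith
      have hD2 : 0 < (D : ℝ) ^ 2 := by
        have : (D : ℝ) ≠ 0 := by exact_mod_cast hD
        positivity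
      have hyY := (hS y hy).2
      have hXx := (hS x hx).1
      calc (D : ℝ) ^ 2 * (x * y) * ‖T‖ ^ 2
          < (D : ℝ) ^ 2 * (x * y) * (9 / 256 * (1 / (x : ℝ)) ^ 4) := by
            refine mul_lt_mul_of_pos_left (hT2.trans_lt hT3) (by positivity)
        _ = (9 * (D : ℝ) ^ 2 * y) / (256 * x ^ 3) := by
            field_simp
        _ ≤ 1 := by
            rw [div_le_one (by positivity)]
            have h1 : X ^ 3 ≤ (x : ℝ) ^ 3 := pow_le_pow_left₀ hX0.le hXx 3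
            have h2 : 9 * (D : ℝ) ^ 2 * y ≤ 9 * (D : ℝ) ^ 2 * Y :=
              mul_le_mul_of_nonneg_left hyY (by positivity)
            linarith
  have hne : (x : ℝ) ≠ (y : ℝ) := by exact_mod_cast hxy
  rcases lt_or_gt_of_ne hne with h | h
  · exact key x hx y hy h hxyc
  · exact key y hy x hx h hxyc.symm

end

end Pool.Agent.U133.WR
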